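import Pool.Agent.Q2.FK.Main
import Pool.Agent.Q2.FK.Unip

set_option autoImplicit false

/-!
# MP_da3f29_al (negated form)

For all `p`, `r` and `k` there is a connected unipotent group `U` over the field of `q = p ^ r`
elements (affine 3-space with the group law
`(a,b,c)(a',b',c') = (a + a', b + b', c + c' + (a - a^q)(b' - b'^q))`) such that no rational
`U`-module which restricts to the regular module of the `r`-th Frobenius kernel is projective over
the group of rational points.
-/

namespace Pool.Agent.Results.MP_da3f29_al.CentralPoints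

open Q2.FK

theorem result (p r : ℕ) (hp : p.Prime) (hr : 1 ≤ r) (F : Type) [Field F] [Finite F]
    (hF : Nat.card F = p ^ r) (k : Type) [Field k] [IsAlgClosed k] [Algebra F k] :
    ∃ (A : Type) (_ : CommRing A) (_ : HopfAlgebra F A),
      Algebra.FiniteType F A ∧ IsDomain (BC F k A) ∧ IsUnipotent k (BC F k A) ∧
      ∀ (M : Type) [AddCommGroup M] [Module k M] (C : Comod k (BC F k A) M),
        C.IsRegular (p ^ r) →
          ¬ Module.Projective (MonoidAlgebra k (WithConv (A →ₐ[F] F))) C.pointRep.asModule := by
  have := Fintype.ofFinite F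
  have hpf : Fact p.Prime := ⟨hp⟩
  have hcard : Fintype.card F = p ^ r := by rw [← Nat.card_eq_fintype_card, hF]
  have hchar : CharP F p := by
    obtain ⟨p', hp'⟩ := CharP.exists F
    have hpp' : p'.Prime := CharP.char_is_prime F p'
    have : Fact p'.Prime := ⟨hpp'⟩
    obtain ⟨n, -, hn⟩ := FiniteField.card F p'
    rw [hcard] at hn
    have h1 : p ∣ p' ^ (n : ℕ) := by
      rw [← hn]
      exact dvd_pow_self p (by omega)
    have h2 : p = p' := (Nat.prime_dvd_prime_iff_eq hp hpp').1 (hp.dvd_of_dvd_pow h1)
    rw [h2]
    exact hp'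
  refine ⟨Co F, inferInstance, inferInstance, finiteType_co F, isDomain_Bk F k,
    fun N _ _ _ C => unipotent F k C, ?_⟩
  intro M _ _ C hC
  rw [← hcard] at hC
  exact main F k p C hC

end Pool.Agent.Results.MP_da3f29_al.CentralPoints
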